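import Pool.Agent.R624.FS.Neg
import Pool.Agent.R624.FS.EncDz
import Pool.Agent.R624.FS.DecDz
import Pool.Agent.R624.FS.EncComp
import Pool.Agent.R624.FS.DecComp

/-!
# Functions versus sets in the degrees of asymptotic computability

Problem MP_106a28_lc, Q1, answered for all eight reducibilities.

* For (uniform and nonuniform) coarse reducibility every function is equivalent to a set.
* For effective dense, generic and dense reducibility (uniform and nonuniform) there is a function
  which is not equivalent to any set; one function works for all six.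

Definitions: `Pool/Agent/R624/FS/Defs.lean`.

Positive part: the set `enc g` shows at stage `s = pair k i` the values `≤ i` of `g` on the block
`[2^k, 2^(k+1))`, spread over a part of the stage which shrinks with the number of `n` in the block
with `g n ≥ i`; values are coded by Hadamard patterns, and the decoder reads the block at the last
stage where the shown part is still at least `2^(-j)`, for `j = 1, 2, ...`.

Negative part: a fusion argument gives an operator computing descriptions of `A` from `g` with
erased values such that a smaller set of values may be erased at will; for a sufficiently generic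
`g` a description of `A` is built from outputs which do not depend on the values of `g` on long
segments.
-/

set_option autoImplicit false

namespace Pool.Agent.Results.MP_106a28_lc.FunctionsVersusSets

open R624FS

theorem result :
    (∀ g : ℕ → ℕ, ∃ A : ℕ → ℕ, (∀ n, A n ≤ 1) ∧
      (UC A g ∧ UC g A) ∧ (NC A g ∧ NC g A)) ∧
    (∃ g : ℕ → ℕ, ∀ A : ℕ → ℕ, (∀ n, A n ≤ 1) →
      ¬ (NED A g ∧ NED g A) ∧ ¬ (UED A g ∧ UED g A) ∧ ¬ (NG A g ∧ NG g A) ∧
      ¬ (UG A g ∧ UG g A) ∧ ¬ (ND A g ∧ ND g A) ∧ ¬ (UD A g ∧ UD g A)) := by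
  refine ⟨fun g => ⟨enc g, ?_, ?_, ?_⟩, neg⟩
  · intro n
    unfold enc
    split_ifs <;> simp
  · obtain ⟨φ, hφ, h1⟩ := s_enccomp
    obtain ⟨ψ, hψ, h2⟩ := s_deccomp
    exact ⟨⟨φ, hφ, fun d hd => ⟨enc d, s_encdz g d hd, h1 d⟩⟩,
      ⟨ψ, hψ, fun d hd => ⟨dec d, s_decdz g d hd, h2 d (s_vis g d hd)⟩⟩⟩
  · obtain ⟨φ, hφ, h1⟩ := s_enccomp
    obtain ⟨ψ, hψ, h2⟩ := s_deccomp
    exact ⟨fun d hd => ⟨φ, hφ, enc d, s_encdz g d hd, h1 d⟩,
      fun d hd => ⟨ψ, hψ, dec d, s_decdz g d hd, h2 d (s_vis g d hd)⟩⟩

end Pool.Agent.Results.MP_106a28_lc.FunctionsVersusSets
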